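import Pool.Agent.Helper42.RPD8

/-!
# The random period doubling subshift is intrinsically ergodic

Letters: `false` stands for `a`, `true` stands for `b`.
All definitions used in the statement of `result` are given in this file.
-/

open MeasureTheory Filter Topology
open scoped ENNReal

namespace Pool.Agent.Results.MP_bb668a_an.IntrinsicErgodicity

/-! ### The random substitution and its subshift -/

/-- The set-valued rule `ϑ`: `a ↦ {ab, ba}`, `b ↦ {aa}`. -/
def theta : Bool → Set (List Bool)
  | false => {[false, true], [true, false]}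
  | true => {[false, false]}

/-- All realisations of the substitution on a word, letter by letter, with independent choices. -/
def thetaWord : List Bool → Set (List Bool)
  | [] => {[]}
  | c :: w => {v | ∃ x ∈ theta c, ∃ y ∈ thetaWord w, v = x ++ y}

/-- `ϑ^n(w)`: all words obtained from `w` by `n` iterations. -/
def thetaIter : ℕ → List Bool → Set (List Bool)
  | 0, w => {w}
  | n + 1, w => {v | ∃ u ∈ thetaIter n w, v ∈ thetaWord u}

/-- A word is legal if it is a subword of an element of `ϑ^n(c)` for some `n ≥ 1` and letter `c`. -/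
def Legal (w : List Bool) : Prop :=
  ∃ n : ℕ, 1 ≤ n ∧ ∃ c : Bool, ∃ v ∈ thetaIter n [c], w <:+: v

/-- The random substitution subshift `X_ϑ ⊆ {a,b}^ℤ`. -/
def X : Set (ℤ → Bool) :=
  {x | ∀ (i : ℤ) (n : ℕ), Legal (List.ofFn fun k : Fin n => x (i + (k : ℕ)))}

/-- The left shift `S`. -/
def shift (x : ℤ → Bool) : ℤ → Bool := fun i => x (i + 1)

/-! ### Invariant measures and entropy -/

/-- `ν` is a shift-invariant Borel probability measure on `X_ϑ`. -/
structure IsInvariant (ν : Measure (ℤ → Bool)) : Prop where
  prob : IsProbabilityMeasure ν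
  inv : MeasurePreserving shift ν ν
  supp : ν Xᶜ = 0

/-- Shannon entropy of the first `n` coordinates under `ν`. -/
noncomputable def blockEntropy (ν : Measure (ℤ → Bool)) (n : ℕ) : ℝ :=
  ∑ w : Fin n → Bool, Real.negMulLog (ν.real {x | ∀ k : Fin n, x ((k : ℕ) : ℤ) = w k})

/-- The measure-theoretic entropy `h(ν)` of `(X_ϑ, S, ν)`: the growth rate of the block entropies
(natural logarithm; the partition into the cylinders `x_0 = a`, `x_0 = b` generates). -/
noncomputable def entropy (ν : Measure (ℤ → Bool)) : ℝ :=
  limsup (fun n : ℕ => blockEntropy ν n / n) atTop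

/-- `ν` is a measure of maximal entropy of `(X_ϑ, S)`. -/
def IsMME (ν : Measure (ℤ → Bool)) : Prop :=
  IsInvariant ν ∧ ∀ ν', IsInvariant ν' → entropy ν' ≤ entropy ν

/-! ### The frequency measure `μ_{1/2}` -/

/-- The law of the random image of a letter under `ϑ_{1/2}`: `a ↦ ab` or `ba` with probability
`1/2` each, `b ↦ aa`. -/
noncomputable def randLetter : Bool → PMF (List Bool)
  | false => (PMF.uniformOfFintype Bool).map fun c => if c then [false, true] else [true, false]
  | true => PMF.pure [false, false]

/-- The law of the random image of a word, with independent choices at each letter. -/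
noncomputable def randWord : List Bool → PMF (List Bool)
  | [] => PMF.pure []
  | c :: w => (randLetter c).bind fun x => (randWord w).map fun y => x ++ y

/-- The law of the random word `ϑ_{1/2}^n(a)`. -/
noncomputable def randIter : ℕ → PMF (List Bool)
  | 0 => PMF.pure [false]
  | n + 1 => (randIter n).bind randWord

/-- The number of occurrences of the word `v` in the word `w`. -/
def occ (v w : List Bool) : ℕ := ((Finset.range w.length).filter (fun i => v <+: w.drop i)).card

/-- The cylinder `[v]` of the word `v` placed at position `0`. -/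
def cyl (v : List Bool) : Set (ℤ → Bool) := {x | ∀ k : Fin v.length, x ((k : ℕ) : ℤ) = v.get k}

/-- `μ` is the frequency measure `μ_{1/2}`: a shift-invariant probability measure on `X_ϑ` such that
for all random words `W n` with the laws of `ϑ_{1/2}^n(a)` (defined on any probability space, with
any joint law, e.g. with `W (n+1)` a random image of `W n`) and every word `v`, almost surely the
number of occurrences of `v` in `W n` divided by `2^n` tends to `μ[v]`. -/
def IsFrequencyMeasure (μ : Measure (ℤ → Bool)) : Prop :=
  IsInvariant μ ∧ ∀ (Ω : Type) [MeasurableSpace Ω] (P : Measure Ω) [IsProbabilityMeasure P]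
    (W : ℕ → Ω → List Bool), (∀ n w, P {ω | W n ω = w} = randIter n w) → ∀ v : List Bool,
      ∀ᵐ ω ∂P, Tendsto (fun n : ℕ => (occ v (W n ω) : ℝ) / 2 ^ n) atTop (𝓝 (μ.real (cyl v)))

/-! ### Comparison with the definitions of the helper files -/

theorem theta_eq : theta = Helper42.RPD.theta := by
  funext c
  cases c <;> rfl

theorem thetaWord_eq (w : List Bool) : thetaWord w = Helper42.RPD.thetaWord w := by
  induction w with
  | nil => rfl
  | cons c w ih => rw [thetaWord, Helper42.RPD.thetaWord, ih, theta_eq]

theorem thetaIter_eq (n : ℕ) (w : List Bool) : thetaIter n w = Helper42.RPD.thetaIter n w := by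
  induction n with
  | zero => rfl
  | succ n ih =>
    rw [thetaIter, Helper42.RPD.thetaIter, ih]
    simp_rw [thetaWord_eq]

theorem legal_iff (w : List Bool) : Legal w ↔ Helper42.RPD.Legal w := by
  unfold Legal Helper42.RPD.Legal
  simp_rw [thetaIter_eq]

theorem X_eq : X = Helper42.RPD.X := by
  unfold X Helper42.RPD.X Helper42.RPD.word
  simp_rw [legal_iff]

theorem isInvariant_iff (ν : Measure (ℤ → Bool)) : IsInvariant ν ↔ Helper42.RPD.IsInv ν := by
  constructor
  · rintro ⟨h1, h2, h3⟩
    rw [X_eq] at h3
    exact ⟨h1, h2, h3⟩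
  · rintro ⟨h1, h2, h3⟩
    rw [← X_eq] at h3
    exact ⟨h1, h2, h3⟩

theorem blockEntropy_eq (ν : Measure (ℤ → Bool)) (n : ℕ) : blockEntropy ν n = Helper42.RPD.H ν n := by
  unfold blockEntropy Helper42.RPD.H Helper42.Ent.ent Helper42.Ent.pr
  apply Finset.sum_congr rfl
  intro w _
  congr 2
  ext x
  simp only [Set.mem_ofPred_eq, Set.mem_preimage, Set.mem_singleton_iff, funext_iff,
    Helper42.RPD.win_apply, zero_add]

theorem entropy_eq {ν : Measure (ℤ → Bool)} (h : Helper42.RPD.IsInv ν) :
    entropy ν = Helper42.RPD.hh ν := by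
  unfold entropy
  simp_rw [blockEntropy_eq]
  exact (Helper42.RPD.tendsto_hh h).limsup_eq

theorem randLetter_eq : randLetter = Helper42.RPD.randLetter := by
  funext c
  cases c <;> rfl

theorem randWord_eq (w : List Bool) : randWord w = Helper42.RPD.randWord w := by
  induction w with
  | nil => rfl
  | cons c w ih => rw [randWord, Helper42.RPD.randWord, ih, randLetter_eq]

theorem randIter_eq (n : ℕ) : randIter n = Helper42.RPD.randIter n := by
  induction n with
  | zero => rfl
  | succ n ih =>
    rw [randIter, Helper42.RPD.randIter, ih]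
    congr 1
    funext w
    exact randWord_eq w

theorem occ_eq (v w : List Bool) : occ v w = Helper42.RPD.occ v w := rfl

theorem real_cyl (μ : Measure (ℤ → Bool)) (v : List Bool) :
    μ.real (cyl v) = Helper42.Ent.pr μ (Helper42.RPD.win 0 v.length) v.get := by
  unfold cyl Helper42.Ent.pr
  congr 1
  ext x
  simp only [Set.mem_ofPred_eq, Set.mem_preimage, Set.mem_singleton_iff, funext_iff,
    Helper42.RPD.win_apply, zero_add]

theorem entropy_le {ν : Measure (ℤ → Bool)} (h : IsInvariant ν) : entropy ν ≤ 2 / 3 * Real.log 2 := by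
  rw [isInvariant_iff] at h
  rw [entropy_eq h]
  exact Helper42.RPD.hh_bound h

theorem isFrequencyMeasure_of_max {μ : Measure (ℤ → Bool)} (h : Helper42.RPD.Max μ) :
    IsFrequencyMeasure μ := by
  refine ⟨(isInvariant_iff μ).mpr h.1, ?_⟩
  intro Ω _ P _ W hW v
  simp_rw [randIter_eq] at hW
  have h1 := Helper42.RPD.ae_tendsto_occ hW h v.get
  rw [List.ofFn_get] at h1
  rw [real_cyl]
  exact h1

/-- There are random words with the prescribed laws. -/
theorem exists_words : ∃ (Ω : Type) (_ : MeasurableSpace Ω) (P : Measure Ω) (_ : IsProbabilityMeasure P)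
    (W : ℕ → Ω → List Bool), ∀ n w, P {ω | W n ω = w} = randIter n w := by
  let _ : MeasurableSpace (List Bool) := ⊤
  refine ⟨ℕ → List Bool, inferInstance, Measure.infinitePi (fun n => (randIter n).toMeasure),
    inferInstance, fun n ω => ω n, ?_⟩
  intro n w
  have h := measurePreserving_eval_infinitePi (X := fun _ => List Bool)
    (fun n => (randIter n).toMeasure) n
  have h1 := h.measure_preimage (s := ({w} : Set (List Bool)))
    (MeasurableSet.nullMeasurableSet trivial)
  have h2 : {ω : ℕ → List Bool | ω n = w} =
      (Function.eval n : (ℕ → List Bool) → List Bool) ⁻¹' {w} := rfl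
  rw [h2, h1]
  exact PMF.toMeasure_apply_singleton _ _ trivial

theorem freq_unique {μ ν : Measure (ℤ → Bool)} (hμ : IsFrequencyMeasure μ)
    (hν : IsFrequencyMeasure ν) : ν = μ := by
  obtain ⟨Ω, _, P, _, W, hW⟩ := exists_words
  have hinv : ∀ {ν : Measure (ℤ → Bool)}, IsInvariant ν → ∀ (i : ℤ) (n : ℕ) (w : Fin n → Bool),
      Helper42.Ent.pr ν (Helper42.RPD.win i n) w = Helper42.Ent.pr ν (Helper42.RPD.win 0 n) w := by
    intro ν hν i n w
    rw [isInvariant_iff] at hν
    rcases Int.eq_nat_or_neg i with ⟨m, rfl | rfl⟩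
    · exact hν.pr_win m n w
    · have h1 := Helper42.RPD.pr_mp (hν.inv.iterate m) (Helper42.RPD.measurable_win (-(m : ℤ)) n) w
      rw [Helper42.RPD.win_iterate, neg_add_cancel] at h1
      exact h1.symm
  apply Helper42.RPD.ext_of_words hν.1.prob hμ.1.prob
  intro i n w
  rw [hinv hν.1, hinv hμ.1]
  have h1 := hν.2 Ω P W hW (List.ofFn w)
  have h2 := hμ.2 Ω P W hW (List.ofFn w)
  have hne : NeBot (ae P) := inferInstance
  obtain ⟨ω, h3, h4⟩ := (h1.and h2).exists
  have h5 := tendsto_nhds_unique h3 h4
  have h6 : ∀ ρ : Measure (ℤ → Bool), ρ.real (cyl (List.ofFn w)) =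
      Helper42.Ent.pr ρ (Helper42.RPD.win 0 n) w := by
    intro ρ
    unfold cyl Helper42.Ent.pr
    congr 1
    ext x
    simp only [Set.mem_ofPred_eq, Set.mem_preimage, Set.mem_singleton_iff, funext_iff,
      Helper42.RPD.win_apply, zero_add]
    constructor
    · intro h k
      have := h ⟨k, by simp⟩
      simpa using this
    · intro h k
      have := h ⟨k, by simpa using k.2⟩
      simpa using this
  rw [h6, h6] at h5
  exact h5

/-- **The random period doubling subshift is intrinsically ergodic, and its measure of maximal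
entropy is the frequency measure `μ_{1/2}`.** There is a measure `μ` which is the one and only
frequency measure `μ_{1/2}`, which is the one and only measure of maximal entropy of `(X_ϑ, S)`,
and which has entropy `(2/3) log 2`. -/
theorem result : ∃ μ : Measure (ℤ → Bool),
    (∀ ν, IsFrequencyMeasure ν ↔ ν = μ) ∧ (∀ ν, IsMME ν ↔ ν = μ) ∧
      entropy μ = 2 / 3 * Real.log 2 := by
  obtain ⟨μ, hμ⟩ := Helper42.RPD.exists_max
  have hent : entropy μ = 2 / 3 * Real.log 2 := by rw [entropy_eq hμ.1]; exact hμ.2
  have hfreq := isFrequencyMeasure_of_max hμ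
  refine ⟨μ, fun ν => ⟨fun hν => freq_unique hfreq hν, ?_⟩, fun ν => ⟨fun hν => ?_, ?_⟩, hent⟩
  · rintro rfl
    exact hfreq
  · have h1 := hν.2 μ hfreq.1
    have h2 := entropy_le hν.1
    have h3 := (isInvariant_iff ν).mp hν.1
    have h4 : Helper42.RPD.Max ν := by
      refine ⟨h3, ?_⟩
      rw [← entropy_eq h3]
      linarith
    exact h4.unique hμ
  · rintro rfl
    refine ⟨hfreq.1, fun ν' hν' => ?_⟩
    rw [hent]
    exact entropy_le hν'

end Pool.Agent.Results.MP_bb668a_an.IntrinsicErgodicity
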